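import Pool.Agent.W525.CB.Stm

/-!
# The volume forms of two charts that differ by the transposition of `0` and `1`
-/

set_option autoImplicit false

open AlgebraicGeometry CategoryTheory Order

namespace Pool.Agent.W191.CB.V01

open Pool.Agent.W525.CB

theorem alt_mat {L V ι : Type*} [Field L] [AddCommGroup V] [Module L V] [Fintype ι]
    [DecidableEq ι] (A : V [⋀^ι]→ₗ[L] L) (v : ι → V) (P : Matrix ι ι L) :
    A (fun i => ∑ j, P i j • v j) = P.det * A v := by
  let φ : (ι → L) →ₗ[L] V := Fintype.linearCombination L v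
  have h := AlternatingMap.eq_smul_basis_det (Pi.basisFun L ι) (A.compLinearMap φ)
  have h1 : A.compLinearMap φ (Pi.basisFun L ι) = A v := by
    rw [AlternatingMap.compLinearMap_apply]
    congr 1
    funext i
    simp [φ, Fintype.linearCombination_apply]
  have h2 := DFunLike.congr_fun h (fun i => (P i : ι → L))
  rw [h1, AlternatingMap.compLinearMap_apply, AlternatingMap.smul_apply, Pi.basisFun_det,
    smul_eq_mul, mul_comm] at h2
  exact h2

theorem core {L V : Type*} [Field L] [AddCommGroup V] [Module L V] (D : L → V)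
    (hmul : ∀ a b, D (a * b) = a • D b + b • D a) (hsub : ∀ a b, D (a - b) = D a - D b)
    (n p : ℕ) (s1 : L) (S T W : Fin (n + 1) → L) (hW : ∀ i, W i = S i ^ 2 - s1 ^ 2 * T i)
    (h1 : s1 ≠ 0) (hw : W 0 ≠ 0) (r1 : s1 + ∑ i, S i * T i ^ p = 0)
    (r2 : ∑ i, S i * W i ^ p = -1) (d1 : D s1 = -∑ i, T i ^ p • D (S i))
    (d2 : ∑ i, W i ^ p • D (S i) = 0) (A : V [⋀^(Fin (n + 1) ⊕ Fin n)]→ₗ[L] L) :
    A (Sum.elim (fun i => D (W i)) (fun i => D (S i.succ / s1))) =
      (-1) ^ (n + 1) * s1 ^ (n + 1) * (T 0 / W 0) ^ p *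
        A (Sum.elim (fun i => D (T i)) (fun i => D (S i.succ))) := by
  have hwp : W 0 ^ p ≠ 0 := pow_ne_zero _ hw
  have e0 : D (S 0) = ∑ j : Fin n, (-(W j.succ / W 0) ^ p) • D (S j.succ) := by
    rw [Fin.sum_univ_succ] at d2
    have h := congrArg (fun v => (W 0 ^ p)⁻¹ • v) d2
    simp only [smul_add, smul_smul, inv_mul_cancel₀ hwp, one_smul, smul_zero,
      Finset.smul_sum] at h
    rw [eq_neg_of_add_eq_zero_left h, ← Finset.sum_neg_distrib]
    refine Finset.sum_congr rfl fun j _ => ?_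
    rw [neg_smul, div_pow, div_eq_inv_mul]
  obtain ⟨b, hb⟩ : ∃ b : Fin n → L, b = fun j => (T 0 * W j.succ / W 0) ^ p - T j.succ ^ p :=
    ⟨_, rfl⟩
  have hb' : ∀ j, b j = (T 0 * W j.succ / W 0) ^ p - T j.succ ^ p := fun j => by rw [hb]
  have e1 : D s1 = ∑ j : Fin n, b j • D (S j.succ) := by
    rw [d1, Fin.sum_univ_succ, e0, Finset.smul_sum, ← Finset.sum_add_distrib,
      ← Finset.sum_neg_distrib]
    refine Finset.sum_congr rfl fun j _ => ?_
    rw [smul_smul, ← add_smul, ← neg_smul]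
    congr 1
    rw [hb', div_pow, div_pow, mul_pow]
    ring
  have e2 : ∀ i, ∃ e : Fin n → L, D (S i) = ∑ j : Fin n, e j • D (S j.succ) := by
    intro i
    refine Fin.cases ⟨_, e0⟩ (fun j => ⟨Pi.single j 1, ?_⟩) i
    rw [Finset.sum_eq_single j]
    · simp
    · intro k _ hk
      simp [Pi.single_eq_of_ne hk]
    · simp
  choose e he using e2
  obtain ⟨C, hC⟩ : ∃ C : Matrix (Fin (n + 1)) (Fin n) L,
      C = Matrix.of fun i j => 2 * S i * e i j - 2 * s1 * T i * b j := ⟨_, rfl⟩
  have eW : ∀ i, D (W i) = (-s1 ^ 2) • D (T i) + ∑ j, C i j • D (S j.succ) := by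
    intro i
    have q1 : D (W i) = (2 * S i) • D (S i) - (s1 ^ 2 • D (T i) + (2 * s1 * T i) • D s1) := by
      rw [hW, hsub, pow_two, pow_two, hmul, hmul, hmul]
      module
    have q2 : ∑ j, C i j • D (S j.succ) = (2 * S i) • D (S i) - (2 * s1 * T i) • D s1 := by
      rw [e1, he i, Finset.smul_sum, Finset.smul_sum, ← Finset.sum_sub_distrib]
      refine Finset.sum_congr rfl fun j _ => ?_
      rw [hC, Matrix.of_apply]
      module
    rw [q1, q2]
    module
  have eS : ∀ i : Fin n, D (S i.succ / s1) = s1⁻¹ • D (S i.succ) -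
      (s1⁻¹ * (S i.succ / s1)) • D s1 := by
    intro i
    have q : D (S i.succ) = (S i.succ / s1) • D s1 + s1 • D (S i.succ / s1) := by
      conv_lhs => rw [← div_mul_cancel₀ (S i.succ) h1]
      rw [hmul]
    rw [q, smul_add, smul_smul, smul_smul, inv_mul_cancel₀ h1, one_smul]
    abel
  obtain ⟨N, hN⟩ : ∃ N : Matrix (Fin n) (Fin n) L,
      N = s1⁻¹ • (1 + Matrix.replicateCol Unit (fun i : Fin n => -(S i.succ / s1)) *
        Matrix.replicateRow Unit b) := ⟨_, rfl⟩
  have hNdet : N.det = (s1⁻¹) ^ n * (T 0 ^ p / (s1 * W 0 ^ p)) := by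
    rw [hN, Matrix.det_smul, Fintype.card_fin, Matrix.det_one_add_replicateCol_mul_replicateRow]
    congr 1
    rw [Fin.sum_univ_succ] at r1 r2
    have q : b ⬝ᵥ (fun i : Fin n => -(S i.succ / s1)) =
        s1⁻¹ * (∑ i : Fin n, S i.succ * T i.succ ^ p -
          T 0 ^ p / W 0 ^ p * ∑ i : Fin n, S i.succ * W i.succ ^ p) := by
      rw [dotProduct, Finset.mul_sum, ← Finset.sum_sub_distrib, Finset.mul_sum]
      refine Finset.sum_congr rfl fun j _ => ?_
      rw [hb', div_pow, mul_pow]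
      field_simp
      ring
    rw [q]
    have r1' : ∑ i : Fin n, S i.succ * T i.succ ^ p = -s1 - S 0 * T 0 ^ p := by
      linear_combination r1
    have r2' : ∑ i : Fin n, S i.succ * W i.succ ^ p = -1 - S 0 * W 0 ^ p := by
      linear_combination r2
    rw [r1', r2']
    field_simp
    ring
  have key := alt_mat A (Sum.elim (fun i => D (T i)) (fun i => D (S i.succ)))
    (Matrix.fromBlocks ((-s1 ^ 2) • (1 : Matrix (Fin (n + 1)) (Fin (n + 1)) L)) C 0 N)
  have hfam : (fun i => ∑ j, (Matrix.fromBlocks ((-s1 ^ 2) •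
      (1 : Matrix (Fin (n + 1)) (Fin (n + 1)) L)) C 0 N) i j •
      (Sum.elim (fun i => D (T i)) (fun i => D (S i.succ)) : Fin (n + 1) ⊕ Fin n → V) j) =
      Sum.elim (fun i => D (W i)) (fun i => D (S i.succ / s1)) := by
    funext i
    rcases i with i | i
    · simp only [Fintype.sum_sum_type, Matrix.fromBlocks_apply₁₁, Matrix.fromBlocks_apply₁₂,
        Sum.elim_inl, Sum.elim_inr]
      rw [eW]
      congr 1
      rw [Finset.sum_eq_single i]
      · simp
      · intro k _ hk
        simp [Matrix.one_apply_ne hk.symm]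
      · simp
    · simp only [Fintype.sum_sum_type, Matrix.fromBlocks_apply₂₁, Matrix.fromBlocks_apply₂₂,
        Sum.elim_inl, Sum.elim_inr, Matrix.zero_apply, zero_smul, Finset.sum_const_zero, zero_add]
      rw [eS, e1, Finset.smul_sum]
      have q : ∀ j, N i j • D (S j.succ) = (if i = j then s1⁻¹ • D (S j.succ) else 0) -
          (s1⁻¹ * (S i.succ / s1)) • b j • D (S j.succ) := by
        intro j
        rw [hN]
        simp only [Matrix.smul_apply, Matrix.add_apply, Matrix.mul_apply, Matrix.one_apply,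
          Matrix.replicateCol_apply, Matrix.replicateRow_apply, Finset.univ_unique,
          Finset.sum_const, Finset.card_singleton, one_smul, smul_eq_mul]
        split_ifs
        · module
        · module
      rw [Finset.sum_congr rfl fun j _ => q j, Finset.sum_sub_distrib, Finset.sum_ite_eq]
      simp
  rw [hfam, Matrix.det_fromBlocks_zero₂₁, Matrix.det_smul, Matrix.det_one, Fintype.card_fin,
    hNdet] at key
  rw [key]
  have z : (-s1 ^ 2) ^ (n + 1) * 1 * (s1⁻¹ ^ n * (T 0 ^ p / (s1 * W 0 ^ p))) =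
      (-1) ^ (n + 1) * s1 ^ (n + 1) * (T 0 / W 0) ^ p := by
    rw [neg_pow, div_pow, inv_pow]
    field_simp
    ring
  rw [z]

theorem main : S_REL → S_DIF → S_V01 := by
  intro hR hD n hn L _ _ _ x y _ hdat σ A
  obtain ⟨a1, a2, a3, a4⟩ := hR n L x y hn hdat σ
  obtain ⟨b1, -, -, -⟩ := hR n L x y hn hdat (σ * Equiv.swap 0 1)
  obtain ⟨c1, c2, c3⟩ := hD n L x y hn hdat σ
  have t0 : (σ * Equiv.swap 0 1 : Equiv.Perm (Fin (n + 3))) 0 = σ 1 := by
    rw [Equiv.Perm.mul_apply, Equiv.swap_apply_left]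
  have t1 : (σ * Equiv.swap 0 1 : Equiv.Perm (Fin (n + 3))) 1 = σ 0 := by
    rw [Equiv.Perm.mul_apply, Equiv.swap_apply_right]
  have ti : ∀ i : Fin (n + 1), (σ * Equiv.swap 0 1 : Equiv.Perm (Fin (n + 3))) i.succ.succ =
      σ i.succ.succ := by
    intro i
    rw [Equiv.Perm.mul_apply, Equiv.swap_apply_of_ne_of_ne]
    · exact Fin.succ_ne_zero _
    · intro h
      rw [← Fin.succ_zero_eq_one] at h
      exact Fin.succ_ne_zero _ (Fin.succ_injective _ h)
  have e2 : (2 : Fin (n + 3)) = (0 : Fin (n + 1)).succ.succ := rfl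
  have hx0 : x (σ 0) ≠ 0 := hdat.nx _
  have hx1 : x (σ 1) ≠ 0 := hdat.nx _
  have hs1 : ss x σ 1 ≠ 0 := div_ne_zero hx1 hx0
  have hw2 : ww x y σ (0 : Fin (n + 1)).succ.succ ≠ 0 := by
    rw [a1]
    refine div_ne_zero (hdat.nu _ _ ?_) (hdat.nu _ _ ?_)
    · intro h
      have h' := σ.injective h
      rw [← Fin.succ_zero_eq_one] at h'
      exact Fin.succ_ne_zero _ (Fin.succ_injective _ h').symm
    · intro h
      have h' := σ.injective h
      rw [← Fin.succ_zero_eq_one] at h'
      exact Fin.succ_ne_zero _ h'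
  have key := core (fun a => KaehlerDifferential.D ℤ L a)
    (fun a b => (KaehlerDifferential.D ℤ L).leibniz a b)
    (fun a b => (KaehlerDifferential.D ℤ L).map_sub a b) n (n + 2) (ss x σ 1)
    (fun i => ss x σ i.succ.succ) (fun i => tt x y σ i.succ.succ)
    (fun i => ww x y σ i.succ.succ) (fun i => rfl) hs1 hw2 a3 a4 c2 c3 A
  have hc : cfam x y (σ * Equiv.swap 0 1) =
      Sum.elim (fun i : Fin (n + 1) => KaehlerDifferential.D ℤ L (ww x y σ i.succ.succ))
        (fun i : Fin n => KaehlerDifferential.D ℤ L (ss x σ i.succ.succ.succ / ss x σ 1)) := by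
    funext i
    rcases i with i | i
    · show KaehlerDifferential.D ℤ L (tt x y (σ * Equiv.swap 0 1) i.succ.succ) =
        KaehlerDifferential.D ℤ L (ww x y σ i.succ.succ)
      rw [tt, t0, t1, ti, a1]
    · show KaehlerDifferential.D ℤ L (ss x (σ * Equiv.swap 0 1) i.succ.succ.succ) =
        KaehlerDifferential.D ℤ L (ss x σ i.succ.succ.succ / ss x σ 1)
      congr 1
      have q := ti i.succ
      rw [ss, t0, q, ss, ss]
      field_simp
  have hw' : ww x y (σ * Equiv.swap 0 1) 2 = tt x y σ 2 := by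
    rw [b1, t0, t1, e2, ti]
    rfl
  rw [← hc] at key
  have hx : x (σ 1) = ss x σ 1 * x (σ 0) := by
    rw [ss]; field_simp
  have hW2 : ww x y σ 2 ≠ 0 := hw2
  have key2 : A (cfam x y (σ * Equiv.swap 0 1)) = (-1) ^ (n + 1) * ss x σ 1 ^ (n + 1) *
      (tt x y σ 2 / ww x y σ 2) ^ (n + 2) * A (cfam x y σ) := key
  rw [hw', t0, hx, key2, div_pow, mul_pow]
  rcases neg_one_pow_eq_or L (n + 1) with h | h
  · left
    rw [h]
    field_simp
  · right
    rw [h]
    field_simp

end Pool.Agent.W191.CB.V01
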